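import Pool.Agent.Q216.Seb.Gen

set_option autoImplicit false

namespace Pool.Agent.Q216.Seb

open Finset

/-- number of ways to choose the columns for given rows -/
def Nf (d : ℕ) : (m : ℕ) → (Fin m → Fin d) → ℕ
  | 0, _ => 1
  | m + 1, ρ => (d - #{b : Fin m | ρ b.succ = ρ 0}) * Nf d m (fun b => ρ b.succ)

/-- the columns `κ` are good for the rows `ρ` -/
def Good {d m : ℕ} (ρ κ : Fin m → Fin d) : Prop := ∀ b b', ρ b = ρ b' → κ b = κ b' → b = b'

instance {d m : ℕ} (ρ κ : Fin m → Fin d) : Decidable (Good ρ κ) := by unfold Good; infer_instance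

theorem good_cons {d m : ℕ} (ρ : Fin (m + 1) → Fin d) (k : Fin d) (κ : Fin m → Fin d) :
    Good ρ (Fin.cons k κ : Fin (m + 1) → Fin d) ↔
      Good (fun b => ρ b.succ) κ ∧ ∀ b : Fin m, ρ b.succ = ρ 0 → k ≠ κ b := by
  constructor
  · intro h
    constructor
    · intro b b' h1 h2
      have := h b.succ b'.succ h1 (by simpa using h2)
      exact Fin.succ_injective _ this
    · intro b hb hk
      have := h 0 b.succ hb.symm (by simpa using hk)
      exact absurd this (Fin.succ_ne_zero b).symm
  · rintro ⟨h1, h2⟩ b b'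
    refine Fin.cases ?_ (fun b => ?_) b <;> refine Fin.cases ?_ (fun b' => ?_) b'
    · intro _ _; rfl
    · intro h3 h4
      simp only [Fin.cons_zero, Fin.cons_succ] at h4
      exact absurd h4 (h2 b' h3.symm)
    · intro h3 h4
      simp only [Fin.cons_zero, Fin.cons_succ] at h4
      exact absurd h4.symm (h2 b h3)
    · intro h3 h4
      simp only [Fin.cons_succ] at h4
      rw [h1 b b' h3 h4]

theorem card_good (d : ℕ) : ∀ (m : ℕ) (ρ : Fin m → Fin d), #{κ : Fin m → Fin d | Good ρ κ} = Nf d m ρ := by
  intro m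
  induction m with
  | zero =>
    intro ρ
    have : ({κ : Fin 0 → Fin d | Good ρ κ} : Finset _) = Finset.univ := by
      ext κ
      simp [Good]
    rw [this]
    simp [Nf]
  | succ m ih =>
    intro ρ
    have h1 : #{κ : Fin (m + 1) → Fin d | Good ρ κ} =
        ∑ κ : Fin m → Fin d, ∑ k : Fin d, if Good ρ (Fin.cons k κ : Fin (m + 1) → Fin d) then 1 else 0 := by
      rw [Finset.card_filter]
      rw [← (Fin.consEquiv (fun _ : Fin (m + 1) => Fin d)).sum_comp, Fintype.sum_prod_type,
        Finset.sum_comm]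
      rfl
    rw [h1]
    have h2 : ∀ κ : Fin m → Fin d, (∑ k : Fin d, if Good ρ (Fin.cons k κ : Fin (m + 1) → Fin d) then 1 else 0) =
        if Good (fun b => ρ b.succ) κ then (d - #{b : Fin m | ρ b.succ = ρ 0}) else 0 := by
      intro κ
      split_ifs with hg
      · rw [← Finset.card_filter]
        have h3 : ({k : Fin d | Good ρ (Fin.cons k κ : Fin (m + 1) → Fin d)} : Finset (Fin d)) =
            (({b : Fin m | ρ b.succ = ρ 0} : Finset (Fin m)).image κ)ᶜ := by
          ext k
          simp only [Finset.mem_filter, Finset.mem_univ, true_and, Finset.mem_compl,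
            Finset.mem_image, not_exists, not_and, good_cons]
          constructor
          · rintro ⟨_, h⟩ b hb hk
            exact h b hb hk.symm
          · intro h
            exact ⟨hg, fun b hb hk => h b hb hk.symm⟩
        rw [h3, Finset.card_compl, Fintype.card_fin, Finset.card_image_of_injOn]
        intro b hb b' hb' hbb
        simp only [Finset.coe_filter, Finset.mem_univ, true_and, Set.mem_ofPred_eq] at hb hb'
        exact hg b b' (hb.trans hb'.symm) hbb
      · apply Finset.sum_eq_zero
        intro k _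
        rw [if_neg]
        intro h
        exact hg ((good_cons ρ k κ).1 h).1
    rw [Finset.sum_congr rfl (fun κ _ => h2 κ), ← Finset.sum_filter, Finset.sum_const, ih,
      smul_eq_mul, mul_comm]
    rfl

/-- a sum over the injections into the leaves of a function of the rows -/
theorem sum_emb_rows (d : ℕ) {m : ℕ} (G : (Fin m → Fin d) → ℝ) :
    ∑ e : Fin m ↪ Leaf d 2, G (fun b => (e b).1) = ∑ ρ : Fin m → Fin d, (Nf d m ρ : ℝ) * G ρ := by
  classical
  have h1 : ∀ ρ : Fin m → Fin d, (Nf d m ρ : ℝ) * G ρ =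
      ∑ κ : Fin m → Fin d, if Good ρ κ then G ρ else 0 := by
    intro ρ
    rw [← Finset.sum_filter, Finset.sum_const, card_good, nsmul_eq_mul]
  rw [Finset.sum_congr rfl (fun ρ _ => h1 ρ), ← Fintype.sum_prod_type' (f := fun ρ κ => if Good ρ κ then G ρ else (0 : ℝ)),
    ← Finset.sum_filter]
  refine Finset.sum_bij' (i := fun e _ => ((fun b => (e b).1), (fun b => (e b).2.1)))
    (j := fun p hp => ⟨fun b => ((p.1 b, (p.2 b, ())) : Fin d × Fin d × Unit), ?_⟩) ?_ ?_ ?_ ?_ ?_
  · intro b b' h
    rw [Finset.mem_filter] at hp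
    exact hp.2 b b' (congrArg (fun x : Fin d × Fin d × Unit => x.1) h)
      (congrArg (fun x : Fin d × Fin d × Unit => x.2.1) h)
  · intro e _
    rw [Finset.mem_filter]
    refine ⟨Finset.mem_univ _, ?_⟩
    intro b b' h1 h2
    apply e.injective
    exact Prod.ext h1 (Prod.ext h2 rfl)
  · intro p _
    exact Finset.mem_univ _
  · intro e _
    rfl
  · intro p _
    rfl
  · intro e _
    rfl

end Pool.Agent.Q216.Seb
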