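import Mathlib

/-!
# The random `d`-ary single elimination bracket (MP_5ab447_lc)
-/

set_option autoImplicit false

namespace Pool.Agent.Q216.Seb

/-- the leaves of the complete `d`-ary tree of height `h` -/
def Leaf (d : ℕ) : ℕ → Type
  | 0 => Unit
  | h + 1 => Fin d × Leaf d h

/-- a mark in `Fin d` for every inner node of the complete `d`-ary tree of height `h`: the mark of the
root together with the marks of the `d` subtrees below it -/
def Mark (d : ℕ) : ℕ → Type
  | 0 => Unit
  | h + 1 => Fin d × (Fin d → Mark d h)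

instance leafFintype (d : ℕ) : (h : ℕ) → Fintype (Leaf d h)
  | 0 => inferInstanceAs (Fintype Unit)
  | h + 1 => letI := leafFintype d h; inferInstanceAs (Fintype (Fin d × Leaf d h))

instance leafDec (d : ℕ) : (h : ℕ) → DecidableEq (Leaf d h)
  | 0 => inferInstanceAs (DecidableEq Unit)
  | h + 1 => letI := leafDec d h; inferInstanceAs (DecidableEq (Fin d × Leaf d h))

instance markFintype (d : ℕ) : (h : ℕ) → Fintype (Mark d h)
  | 0 => inferInstanceAs (Fintype Unit)
  | h + 1 => letI := markFintype d h; inferInstanceAs (Fintype (Fin d × (Fin d → Mark d h)))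

/-- `B` is a tournament: `B x y` means that `x` beats `y`. -/
def IsTournament {N : Type} (B : N → N → Prop) : Prop :=
  (∀ x, ¬ B x x) ∧ ∀ x y, x ≠ y → (B x y ↔ ¬ B y x)

/-- `x` is a Condorcet winner of `X`. -/
def IsCW {N : Type} (B : N → N → Prop) (X : Set N) (x : N) : Prop :=
  x ∈ X ∧ ∀ y ∈ X, y ≠ x → B x y

open Classical in
/-- the label of an inner node whose children are labelled `a 0, …, a (d-1)` and whose mark is `m`:
the Condorcet winner of the set of the labels of the children if there is one, otherwise `a m` -/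
noncomputable def champ {N : Type} {d : ℕ} (B : N → N → Prop) (a : Fin d → N) (m : Fin d) : N :=
  if h : ∃ x, IsCW B (Set.range a) x then h.choose else a m

/-- the label of the root, for the teams `ℓ` on the leaves and the marks -/
noncomputable def win {N : Type} {d : ℕ} (B : N → N → Prop) :
    (h : ℕ) → (Leaf d h → N) → Mark d h → N
  | 0, ℓ, _ => ℓ ()
  | h + 1, ℓ, m => champ B (fun i => win B h (fun l => ℓ (i, l)) (m.2 i)) m.1

open Classical in
/-- the probability that `x` wins, for a uniformly random bijection from the leaves to the `d ^ h` teams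
and independent uniformly random marks -/
noncomputable def r (d h : ℕ) (B : Fin (d ^ h) → Fin (d ^ h) → Prop) (x : Fin (d ^ h)) : ℝ :=
  (Fintype.card {p : (Leaf d h ≃ Fin (d ^ h)) × Mark d h // win B h p.1 p.2 = x} : ℝ) /
    (Fintype.card ((Leaf d h ≃ Fin (d ^ h)) × Mark d h) : ℝ)

/-- `T` and `T'` agree on every match except possibly matches between two members of `S`. -/
def Adjacent {N : Type} (S : Finset N) (T T' : N → N → Prop) : Prop :=
  ∀ x y, ¬ (x ∈ S ∧ y ∈ S) → (T x y ↔ T' x y)

/-- the set of all the gains `r_S(T') - r_S(T)` -/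
def gains (d k : ℕ) : Set ℝ :=
  {g | ∃ (h : ℕ) (T T' : Fin (d ^ h) → Fin (d ^ h) → Prop) (S : Finset (Fin (d ^ h))),
    1 ≤ h ∧ IsTournament T ∧ IsTournament T' ∧ S.card ≤ k ∧ Adjacent S T T' ∧
    g = ∑ x ∈ S, r d h T' x - ∑ x ∈ S, r d h T x}

/-- `α_{d,k}` -/
noncomputable def α (d k : ℕ) : ℝ := sSup (gains d k)

/-- `R d SEB` is `k`-SNM-`a` for every `n = d ^ h`. -/
def IsSNM (d k : ℕ) (a : ℝ) : Prop := ∀ g ∈ gains d k, g ≤ a

end Pool.Agent.Q216.Seb
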