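import Mathlib

set_option autoImplicit false

namespace Pool.Agent.Q216.Seb

/-- the number of final wins, as a function of the special finalists -/
def wb (d : ℕ) (q0 q1 q2 q3 q4 : Bool) : ℕ :=
  bif q4 then (bif (q2 || q3) then (bif (q0 || q1) then 1 + q2.toNat + q3.toNat else d) else d)
  else (bif (q0 || q1) then 0 else (bif (q2 || q3) then d else 0))

def term' (d : ℕ) (e01 e02 e03 e04 e12 e13 e14 e23 e24 e34 : Bool) : ℕ :=
  ((d - (e01.toNat + e02.toNat + e03.toNat + e04.toNat)) *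
    ((d - (e12.toNat + e13.toNat + e14.toNat)) *
      ((d - (e23.toNat + e24.toNat)) * ((d - e34.toNat) * d)))) *
  ((bif e04 then wb d (!e04 || (e04 && (e02 || e03))) (!e01 && !e14) (!e02 && !e12) (!e03 && !e13 && !e23) (!e24 && !e34) else 0) +
   (bif e14 then wb d (!e04) ((!e01 && !e14) || (e14 && (e12 || e13))) (!e02 && !e12) (!e03 && !e13 && !e23) (!e24 && !e34) else 0) +
   (bif e24 then wb d (!e04) (!e01 && !e14) ((!e02 && !e12) || (e24 && (e02 || e12))) (!e03 && !e13 && !e23) (!e24 && !e34) else 0) +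
   (bif e34 then wb d (!e04) (!e01 && !e14) (!e02 && !e12) ((!e03 && !e13 && !e23) || (e34 && (e03 || e13))) (!e24 && !e34) else 0) +
   wb d (!e04) (!e01 && !e14) (!e02 && !e12) (!e03 && !e13 && !e23) ((!e24 && !e34) || ((e24 || e34) && (e04 || e14))) +
   (d - (e04.toNat + e14.toNat + e24.toNat + e34.toNat + 1)) *
     wb d (!e04) (!e01 && !e14) (!e02 && !e12) (!e03 && !e13 && !e23) (!e24 && !e34))

def term (d r0 r1 r2 r3 r4 : ℕ) : ℕ :=
  term' d (Nat.beq r0 r1) (Nat.beq r0 r2) (Nat.beq r0 r3) (Nat.beq r0 r4) (Nat.beq r1 r2) (Nat.beq r1 r3)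
    (Nat.beq r1 r4) (Nat.beq r2 r3) (Nat.beq r2 r4) (Nat.beq r3 r4)

def loop (f : ℕ → ℕ) : ℕ → ℕ
  | 0 => 0
  | n + 1 => loop f n + f n

def K (d : ℕ) : ℕ :=
  loop (fun r0 => loop (fun r1 => loop (fun r2 => loop (fun r3 => loop (fun r4 =>
    term d r0 r1 r2 r3 r4) d) d) d) d) d


end Pool.Agent.Q216.Seb
namespace Pool.Agent.Q216.Seb
theorem K3 : K 3 * 420 ≤ 193 * (9 * (9*8*7*6*5)) := by decide +kernel
theorem K5 : K 5 * 420 ≤ 193 * (25 * (25*24*23*22*21)) := by decide +kernel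
theorem K6 : K 6 * 420 ≤ 193 * (36 * (36*35*34*33*32)) := by decide +kernel
theorem K4 : K 4 * 420 ≤ 193 * (16 * (16*15*14*13*12)) := by decide +kernel
end Pool.Agent.Q216.Seb
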