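import Pool.Agent.Q216.Seb.Main
import Pool.Agent.Q216.Seb.Kern

set_option autoImplicit false

namespace Pool.Agent.Q216.Seb

open Finset

theorem avg_div {A : Type} [Fintype A] (f : A → ℝ) (c : ℝ) : avg (fun a => f a / c) = avg f / c := by
  unfold avg
  rw [← Finset.sum_div, div_right_comm]

theorem five_le {d : ℕ} (hd : 3 ≤ d) : 5 ≤ d ^ 2 := by nlinarith

/-- the coalition -/
def coal (n : ℕ) : Finset (Fin n) := Finset.univ.filter (fun t => 2 ≤ t.val ∧ t.val ≤ 4)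

theorem mem_coal {n : ℕ} (t : Fin n) : t ∈ coal n ↔ ∃ b : Fin 5, 2 ≤ b.val ∧ ty t = some b := by
  unfold coal
  rw [Finset.mem_filter]
  constructor
  · rintro ⟨_, h1, h2⟩
    exact ⟨⟨t.val, by omega⟩, h1, ty_some.2 rfl⟩
  · rintro ⟨b, hb, h⟩
    rw [ty_some] at h
    have := b.isLt
    exact ⟨Finset.mem_univ _, by omega, by omega⟩

theorem coal_card {n : ℕ} (hn : 5 ≤ n) : (coal n).card = 3 := by
  have : coal n = {⟨2, by omega⟩, ⟨3, by omega⟩, ⟨4, by omega⟩} := by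
    ext t
    unfold coal
    simp only [Finset.mem_filter, Finset.mem_univ, true_and, Finset.mem_insert,
      Finset.mem_singleton, Fin.ext_iff]
    omega
  rw [this]
  rfl

theorem adj {n : ℕ} : Adjacent (coal n) (TB n) (TB' n) := by
  intro x y h
  unfold coal at h
  simp only [Finset.mem_filter, Finset.mem_univ, true_and] at h
  unfold TB TB'
  omega

theorem sum_T' (d h : ℕ) (hn : 5 ≤ d ^ h) (hd : 0 < d) : ∑ x ∈ coal (d ^ h), r d h (TB' (d ^ h)) x = 1 := by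
  classical
  rw [sum_r_eq]
  have h1 := leaf_equiv d h
  have h2 := mark_nonempty d hd h
  refine (avg_congr (g := fun _ => (1 : ℝ)) ?_).trans (avg_const 1)
  intro p
  rw [if_pos]
  have h3 : win (TB' (d ^ h)) h p.1 p.2 = ⟨4, by omega⟩ := by
    refine win_cw (TB'_tour _) ?_ h _ _ ⟨p.1.symm ⟨4, by omega⟩, by simp⟩
    intro y hy
    left
    exact ⟨rfl, fun h' => hy (Fin.ext h')⟩
  rw [h3]
  unfold coal
  simp

/-- the mark at the root -/
def mk1 {d : ℕ} (m : Mark d 1) : Fin d := (show Fin d × (Fin d → Mark d 0) from m).1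

theorem sum_T (d : ℕ) (hd : 3 ≤ d) : ∑ x ∈ coal (d ^ 2), r d 2 (TB (d ^ 2)) x =
    ((∑ ρ : Fin 5 → Fin d, Nf d 5 ρ * VS ρ : ℕ) : ℝ) / ((d ^ 2 * (d ^ 2).descFactorial 5 : ℕ) : ℝ) := by
  classical
  have h5 := five_le hd
  have hd0 : 0 < d := by omega
  let e5 : Fin 5 ↪ Fin (d ^ 2) := (Fin.castLEEmb h5)
  have he : ∀ b, (e5 b).val = b.val := fun b => rfl
  have hm1 := mark_nonempty d hd0 1
  have hm0 := mark_nonempty d hd0 0
  have hfd : Nonempty (Fin d) := ⟨⟨0, hd0⟩⟩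
  rw [sum_r_eq, avg_prod]
  have key : ∀ σ : Leaf d 2 ≃ Fin (d ^ 2),
      avg (fun m : Mark d 2 => if win (TB (d ^ 2)) 2 σ m ∈ coal (d ^ 2) then (1 : ℝ) else 0) =
      (VS (row σ e5) : ℝ) / (d ^ 2 : ℝ) := by
    intro σ
    have e1 : avg (fun m : Mark d 2 => if win (TB (d ^ 2)) 2 σ m ∈ coal (d ^ 2) then (1 : ℝ) else 0) =
        avg (fun m : Fin d × (Fin d → Mark d 1) =>
          if (∃ b : Fin 5, 2 ≤ b.val ∧ ty (champ (TB (d ^ 2)) (cc σ (fun i =>
            mk1 (m.2 i))) m.1) = some b) then (1 : ℝ) else 0) := by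
      apply avg_congr
      intro m
      have : win (TB (d ^ 2)) 2 σ m ∈ coal (d ^ 2) ↔
        (∃ b : Fin 5, 2 ≤ b.val ∧ ty (champ (TB (d ^ 2)) (cc σ (fun i => mk1 (m.2 i))) m.1) = some b) :=
        mem_coal (win (TB (d ^ 2)) 2 σ m)
      by_cases h : win (TB (d ^ 2)) 2 σ m ∈ coal (d ^ 2)
      · rw [if_pos h, if_pos (this.1 h)]
      · rw [if_neg h, if_neg (fun h' => h (this.2 h'))]
    rw [e1, avg_prod, avg_comm]
    have e2 : ∀ mm : Fin d → Mark d 1, avg (fun k : Fin d =>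
          if (∃ b : Fin 5, 2 ≤ b.val ∧ ty (champ (TB (d ^ 2)) (cc σ (fun i =>
            mk1 (mm i))) k) = some b) then (1 : ℝ) else 0) =
          (fun m1 : Mark d 1 => (wS (row σ e5) (ty (tt σ (row σ e5 4)
            (mk1 m1))) : ℝ) / d) (mm (row σ e5 4)) := by
      intro mm
      exact root_avg σ e5 he hd0 (fun i => mk1 (mm i))
    rw [avg_congr e2]
    refine (avg_pi (row σ e5 4) (fun m1 : Mark d 1 => (wS (row σ e5) (ty (tt σ (row σ e5 4)
            (mk1 m1))) : ℝ) / d)).trans ?_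
    have e3 : avg (fun m1 : Mark d 1 => (wS (row σ e5) (ty (tt σ (row σ e5 4)
            (mk1 m1))) : ℝ) / d) =
        avg (fun m1 : Fin d × (Fin d → Mark d 0) => (wS (row σ e5) (ty (tt σ (row σ e5 4)
            m1.1)) : ℝ) / d) := rfl
    rw [e3, avg_prod]
    simp only [avg_const]
    rw [avg_div, row_avg σ e5 he hd0 (row σ e5 4) (fun p => wS (row σ e5) p), div_div, ← sq]
    rfl
  rw [avg_congr key]
  have e4 := avg_emb e5 (leaf_equiv d 2)
    (fun e => (VS (fun b => (show Fin d × Leaf d 1 from e b).1) : ℝ) / (d ^ 2 : ℝ))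
  have e5' : avg (fun σ : Leaf d 2 ≃ Fin (d ^ 2) => (VS (row σ e5) : ℝ) / (d ^ 2 : ℝ)) =
      avg (fun e : Fin 5 ↪ Leaf d 2 =>
        (VS (fun b => (show Fin d × Leaf d 1 from e b).1) : ℝ) / (d ^ 2 : ℝ)) := e4
  rw [e5', avg_div]
  unfold avg
  have e6 := sum_emb_rows d (m := 5) (fun ρ => (VS ρ : ℝ))
  have e7 : ∑ e : Fin 5 ↪ Leaf d 2, (VS (fun b => (show Fin d × Leaf d 1 from e b).1) : ℝ) =
      ∑ ρ : Fin 5 → Fin d, (Nf d 5 ρ : ℝ) * (VS ρ : ℝ) := e6
  rw [e7, Fintype.card_embedding_eq, Fintype.card_fin, card_leaf]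
  push_cast
  rw [div_div, mul_comm ((d : ℝ) ^ 2)]

end Pool.Agent.Q216.Seb
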