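import Pool.Agent.Q216.Seb.Defs

set_option autoImplicit false

namespace Pool.Agent.Q216.Seb

open Finset

/-- the average of a function on a finite type -/
noncomputable def avg {A : Type} [Fintype A] (f : A → ℝ) : ℝ := (∑ a, f a) / Fintype.card A

theorem avg_const {A : Type} [Fintype A] [Nonempty A] (c : ℝ) : avg (fun _ : A => c) = c := by
  unfold avg
  have : (Fintype.card A : ℝ) ≠ 0 := by
    have := Fintype.card_pos (α := A)
    positivity
  rw [Finset.sum_const, Finset.card_univ, nsmul_eq_mul]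
  field_simp

theorem avg_mono {A : Type} [Fintype A] {f g : A → ℝ} (h : ∀ a, f a ≤ g a) : avg f ≤ avg g := by
  unfold avg
  exact div_le_div_of_nonneg_right (Finset.sum_le_sum (fun a _ => h a)) (Nat.cast_nonneg _)

theorem avg_prod {A B : Type} [Fintype A] [Fintype B] (f : A × B → ℝ) :
    avg f = avg (fun a => avg (fun b => f (a, b))) := by
  unfold avg
  rw [Fintype.sum_prod_type, Fintype.card_prod, ← Finset.sum_div, div_div]
  push_cast
  rw [mul_comm]

theorem avg_equiv {A B : Type} [Fintype A] [Fintype B] (e : A ≃ B) (f : B → ℝ) :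
    avg (fun a => f (e a)) = avg f := by
  unfold avg
  rw [Equiv.sum_comp e f, Fintype.card_congr e]

theorem avg_congr {A : Type} [Fintype A] {f g : A → ℝ} (h : ∀ a, f a = g a) : avg f = avg g := by
  unfold avg
  rw [Finset.sum_congr rfl (fun a _ => h a)]

/-- the average over all functions of a function of one value -/
theorem avg_pi {ι B : Type} [Fintype ι] [DecidableEq ι] [Fintype B] [Nonempty B] (i : ι)
    (g : B → ℝ) : avg (fun m : ι → B => g (m i)) = avg g := by
  have h1 := avg_equiv (Equiv.piSplitAt i (fun _ : ι => B))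
    (fun p : B × ((j : {j // j ≠ i}) → B) => g p.1)
  rw [avg_prod] at h1
  simp only [avg_const] at h1
  exact h1

/-- averaging over the uniformly random bijections a function of the places of `k` given elements is
averaging over the injections -/
theorem avg_emb {A B : Type} [Fintype A] [Fintype B] [DecidableEq A] [DecidableEq B] {k : ℕ}
    (b : Fin k ↪ B) (hAB : Nonempty (A ≃ B)) (G : (Fin k ↪ A) → ℝ) :
    avg (fun σ : A ≃ B => G (b.trans σ.symm.toEmbedding)) = avg G := by
  classical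
  let π : (A ≃ B) → (Fin k ↪ A) := fun σ => b.trans σ.symm.toEmbedding
  -- constant fibres
  have hfib : ∀ e e' : Fin k ↪ A, #{σ : A ≃ B | π σ = e} = #{σ : A ≃ B | π σ = e'} := by
    intro e e'
    have htr := Equiv.Perm.isMultiplyPretransitive A k
    obtain ⟨τ, hτ⟩ := htr.exists_smul_eq e e'
    refine Finset.card_bij (fun σ _ => τ.symm.trans σ) ?_ ?_ ?_
    · intro σ hσ
      rw [Finset.mem_filter] at hσ ⊢
      refine ⟨Finset.mem_univ _, ?_⟩
      rw [← hτ, ← hσ.2]
      ext i
      rfl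
    · intro σ _ σ' _ h
      ext x
      have := congrArg (fun f : A ≃ B => f (τ x)) h
      simpa using this
    · intro σ hσ
      rw [Finset.mem_filter] at hσ
      refine ⟨τ.trans σ, ?_, ?_⟩
      · rw [Finset.mem_filter]
        refine ⟨Finset.mem_univ _, ?_⟩
        have h1 : e = τ⁻¹ • e' := by rw [← hτ, inv_smul_smul]
        rw [h1, ← hσ.2]
        ext i
        rfl
      · ext x
        simp
  obtain ⟨σ₀⟩ := hAB
  let c : ℕ := #{σ : A ≃ B | π σ = π σ₀}
  have hc : ∀ e, #{σ : A ≃ B | π σ = e} = c := fun e => hfib e _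
  have hcpos : 0 < c := Finset.card_pos.2 ⟨σ₀, by simp⟩
  have hsum : ∀ F : (Fin k ↪ A) → ℝ, ∑ σ : A ≃ B, F (π σ) = c * ∑ e, F e := by
    intro F
    rw [← Finset.sum_fiberwise (s := (Finset.univ : Finset (A ≃ B))) π (fun σ => F (π σ)),
      Finset.mul_sum]
    refine Finset.sum_congr rfl (fun e _ => ?_)
    rw [Finset.sum_congr rfl (g := fun _ => F e) (fun σ hσ => by
      rw [Finset.mem_filter] at hσ; rw [hσ.2]), Finset.sum_const, hc, nsmul_eq_mul]
  have hcard : (Fintype.card (A ≃ B) : ℝ) = c * Fintype.card (Fin k ↪ A) := by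
    have := hsum (fun _ => 1)
    simpa using this
  have hcR : (c : ℝ) ≠ 0 := by positivity
  show (∑ σ : A ≃ B, G (π σ)) / (Fintype.card (A ≃ B) : ℝ) = _
  rw [hsum G, hcard]
  unfold avg
  rw [mul_div_mul_left _ _ hcR]

variable {N : Type}

theorem IsCW.unique {B : N → N → Prop} (hB : IsTournament B) {X : Set N} {x y : N}
    (hx : IsCW B X x) (hy : IsCW B X y) : x = y := by
  by_contra h
  have h1 := hx.2 y hy.1 (Ne.symm h)
  have h2 := hy.2 x hx.1 h
  exact ((hB.2 x y h).1 h1) h2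

theorem champ_cw {d : ℕ} {B : N → N → Prop} (hB : IsTournament B) {a : Fin d → N} {m : Fin d}
    {x : N} (hx : IsCW B (Set.range a) x) : champ B a m = x := by
  unfold champ
  have hex : ∃ x, IsCW B (Set.range a) x := ⟨x, hx⟩
  rw [dif_pos hex]
  exact IsCW.unique hB hex.choose_spec hx

theorem champ_no {d : ℕ} {B : N → N → Prop} {a : Fin d → N} {m : Fin d}
    (hx : ∀ x, ¬ IsCW B (Set.range a) x) : champ B a m = a m := by
  unfold champ
  rw [dif_neg (by push Not; exact hx)]

theorem champ_mem {d : ℕ} (B : N → N → Prop) (a : Fin d → N) (m : Fin d) :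
    champ B a m ∈ Set.range a := by
  unfold champ
  split_ifs with h
  · exact h.choose_spec.1
  · exact ⟨m, rfl⟩

/-- a team that beats every other team wins with certainty -/
theorem win_cw {d : ℕ} {B : N → N → Prop} (hB : IsTournament B) {x : N} (hx : ∀ y, y ≠ x → B x y) :
    ∀ (h : ℕ) (ℓ : Leaf d h → N) (m : Mark d h), (∃ l, ℓ l = x) → win B h ℓ m = x := by
  intro h
  induction h with
  | zero =>
    rintro ℓ m ⟨l, hl⟩
    exact hl
  | succ h ih =>
    rintro ℓ m ⟨⟨i, l⟩, hl⟩
    have h1 := ih (fun l => ℓ (i, l)) (m.2 i) ⟨l, hl⟩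
    show champ B (fun i => win B h (fun l => ℓ (i, l)) (m.2 i)) m.1 = x
    exact champ_cw hB ⟨⟨i, h1⟩, fun y _ hy => hx y hy⟩

open Classical in
theorem sum_r_eq (d h : ℕ) (B : Fin (d ^ h) → Fin (d ^ h) → Prop) (S : Finset (Fin (d ^ h))) :
    ∑ x ∈ S, r d h B x =
      avg (fun p : (Leaf d h ≃ Fin (d ^ h)) × Mark d h => if win B h p.1 p.2 ∈ S then (1 : ℝ) else 0) := by
  unfold r avg
  rw [← Finset.sum_div]
  congr 1
  have : ∀ x, (Fintype.card {p : (Leaf d h ≃ Fin (d ^ h)) × Mark d h // win B h p.1 p.2 = x} : ℝ) =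
      ∑ p : (Leaf d h ≃ Fin (d ^ h)) × Mark d h, if win B h p.1 p.2 = x then (1 : ℝ) else 0 := by
    intro x
    rw [Fintype.card_subtype, Finset.sum_boole]
  rw [Finset.sum_congr rfl (fun x _ => this x), Finset.sum_comm]
  refine Finset.sum_congr rfl (fun p _ => ?_)
  rw [Finset.sum_ite_eq]

theorem sum_r_nonneg (d h : ℕ) (B : Fin (d ^ h) → Fin (d ^ h) → Prop) (S : Finset (Fin (d ^ h))) :
    0 ≤ ∑ x ∈ S, r d h B x := by
  refine Finset.sum_nonneg (fun x _ => ?_)
  unfold r
  positivity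

theorem card_leaf (d h : ℕ) : Fintype.card (Leaf d h) = d ^ h := by
  induction h with
  | zero => rfl
  | succ h ih =>
    have : Fintype.card (Leaf d (h + 1)) = Fintype.card (Fin d × Leaf d h) := rfl
    rw [this, Fintype.card_prod, Fintype.card_fin, ih, pow_succ, mul_comm]

theorem leaf_equiv (d h : ℕ) : Nonempty (Leaf d h ≃ Fin (d ^ h)) :=
  ⟨Fintype.equivFinOfCardEq (card_leaf d h)⟩

theorem mark_nonempty (d : ℕ) (hd : 0 < d) : (h : ℕ) → Nonempty (Mark d h)
  | 0 => ⟨()⟩
  | h + 1 => by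
    obtain ⟨m⟩ := mark_nonempty d hd h
    exact ⟨(⟨0, hd⟩, fun _ => m)⟩

theorem sum_r_le_one (d h : ℕ) (hd : 0 < d) (B : Fin (d ^ h) → Fin (d ^ h) → Prop)
    (S : Finset (Fin (d ^ h))) : ∑ x ∈ S, r d h B x ≤ 1 := by
  rw [sum_r_eq]
  have h1 := leaf_equiv d h
  have h2 := mark_nonempty d hd h
  refine le_trans (avg_mono (g := fun _ => (1 : ℝ)) ?_) (le_of_eq (avg_const 1))
  intro p
  split_ifs <;> norm_num

theorem gains_bdd (d k : ℕ) (hd : 0 < d) : BddAbove (gains d k) := by
  refine ⟨1, ?_⟩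
  rintro g ⟨h, T, T', S, _, _, _, _, _, rfl⟩
  have h1 := sum_r_le_one d h hd T' S
  have h2 := sum_r_nonneg d h T S
  linarith

theorem gains_nonempty (d k : ℕ) : (gains d k).Nonempty := by
  refine ⟨0, 1, fun x y => x < y, fun x y => x < y, ∅, le_refl _, ?_, ?_, by simp, ?_, by simp⟩
  · refine ⟨fun x => lt_irrefl x, fun x y h => ?_⟩
    rw [not_lt]
    exact ⟨le_of_lt, fun h' => lt_of_le_of_ne h' h⟩
  · refine ⟨fun x => lt_irrefl x, fun x y h => ?_⟩
    rw [not_lt]
    exact ⟨le_of_lt, fun h' => lt_of_le_of_ne h' h⟩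
  · intro x y _
    rfl

theorem α_isLeast (d k : ℕ) (hd : 0 < d) : IsLeast {a | IsSNM d k a} (α d k) := by
  constructor
  · intro g hg
    exact le_csSup (gains_bdd d k hd) hg
  · intro a ha
    exact csSup_le (gains_nonempty d k) ha

theorem le_α (d k : ℕ) (hd : 0 < d) {g : ℝ} (hg : g ∈ gains d k) : g ≤ α d k :=
  le_csSup (gains_bdd d k hd) hg

end Pool.Agent.Q216.Seb
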