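import Pool.Agent.Q216.Seb.Final

set_option autoImplicit false

namespace Pool.Agent.Q216.Seb

open Finset

theorem sum_cons' {α : Type} [Fintype α] {m : ℕ} (f : (Fin (m + 1) → α) → ℕ) :
    ∑ ρ, f ρ = ∑ a, ∑ ρ, f (Fin.cons a ρ : Fin (m + 1) → α) := by
  rw [← (Fin.consEquiv (fun _ : Fin (m + 1) => α)).sum_comp, Fintype.sum_prod_type]
  rfl

theorem sum_five {α : Type} [Fintype α] (g : α → α → α → α → α → ℕ) :
    ∑ ρ : Fin 5 → α, g (ρ 0) (ρ 1) (ρ 2) (ρ 3) (ρ 4) = ∑ a, ∑ b, ∑ c, ∑ d, ∑ e, g a b c d e := by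
  rw [sum_cons']
  refine Finset.sum_congr rfl (fun a _ => ?_)
  rw [sum_cons']
  refine Finset.sum_congr rfl (fun b _ => ?_)
  rw [sum_cons']
  refine Finset.sum_congr rfl (fun c _ => ?_)
  rw [sum_cons']
  refine Finset.sum_congr rfl (fun d _ => ?_)
  rw [sum_cons']
  refine Finset.sum_congr rfl (fun e _ => ?_)
  rw [Fintype.sum_unique]
  rfl

theorem sum_loop (d : ℕ) (f : ℕ → ℕ) : ∑ a : Fin d, f a.val = loop f d := by
  rw [Fin.sum_univ_eq_sum_range]
  induction d with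
  | zero => rfl
  | succ d ih => rw [Finset.sum_range_succ, ih]; rfl

/-- the Condorcet winner test by bits -/
def qb (R : Fin 5 → Bool) : Fin 5 → Bool
  | 0 => !R 4
  | 1 => !R 0 && !R 4
  | 2 => !R 0 && !R 1
  | 3 => !R 0 && !R 1 && !R 2
  | 4 => !R 2 && !R 3

theorem champ5_bits : ∀ (R : Fin 5 → Bool) (b : Fin 5), R b = true → ∀ p : Option (Fin 5),
    (decide (champ5 R p b)) = (qb R b || ((R 4 && (R 2 || R 3) && (R 0 || R 1)) && decide (p = some b))) := by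
  decide +kernel

theorem aS_bits : ∀ F : Fin 5 → Bool, aS F = (if F 4 then (if (F 2 || F 3) then (if (F 0 || F 1) then 0 else 1) else 1)
    else (if (F 0 || F 1) then 0 else (if (F 2 || F 3) then 1 else 0))) := by
  decide +kernel

theorem bS_bits : ∀ F : Fin 5 → Bool, bS F = (if F 4 then (if (F 2 || F 3) then (if (F 0 || F 1) then
    1 + (F 2).toNat + (F 3).toNat else 0) else 0) else 0) := by
  decide +kernel

theorem ws_bits (d : ℕ) (F : Fin 5 → Bool) : aS F * d + bS F = wb d (F 0) (F 1) (F 2) (F 3) (F 4) := by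
  rw [aS_bits, bS_bits]
  unfold wb
  cases F 0 <;> cases F 1 <;> cases F 2 <;> cases F 3 <;> cases F 4 <;> simp

theorem FFρ_bits {d : ℕ} (ρ : Fin 5 → Fin d) (p : Option (Fin 5)) (b : Fin 5) :
    FFρ ρ p b = (qb (fun b' => decide (ρ b' = ρ b)) b ||
      ((decide (ρ 4 = ρ b) && (decide (ρ 2 = ρ b) || decide (ρ 3 = ρ b)) &&
        (decide (ρ 0 = ρ b) || decide (ρ 1 = ρ b))) && decide (p = some b))) := by
  unfold FFρ
  exact champ5_bits _ b (by simp) p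

theorem beq_eq {d : ℕ} (x y : Fin d) : Nat.beq x.val y.val = decide (x = y) := by
  by_cases h : x = y
  · subst h
    rw [decide_eq_true rfl]
    exact Nat.beq_refl _
  · rw [decide_eq_false h]
    cases hb : Nat.beq x.val y.val with
    | false => rfl
    | true => exact absurd (Fin.ext (Nat.eq_of_beq_eq_true hb)) h

theorem dec_symm {d : ℕ} (x y : Fin d) : decide (x = y) = decide (y = x) := by
  rw [Bool.eq_iff_iff, decide_eq_true_iff, decide_eq_true_iff]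
  exact eq_comm

theorem ite_toNat (P : Prop) [Decidable P] : (if P then 1 else 0 : ℕ) = (decide P).toNat := by
  by_cases h : P <;> simp [h]

theorem Nf_bits {d : ℕ} (ρ : Fin 5 → Fin d) : Nf d 5 ρ =
    ((d - ((decide (ρ 0 = ρ 1)).toNat + (decide (ρ 0 = ρ 2)).toNat + (decide (ρ 0 = ρ 3)).toNat +
      (decide (ρ 0 = ρ 4)).toNat)) *
    ((d - ((decide (ρ 1 = ρ 2)).toNat + (decide (ρ 1 = ρ 3)).toNat + (decide (ρ 1 = ρ 4)).toNat)) *
      ((d - ((decide (ρ 2 = ρ 3)).toNat + (decide (ρ 2 = ρ 4)).toNat)) *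
        ((d - (decide (ρ 3 = ρ 4)).toNat) * d)))) := by
  simp only [Nf, Finset.card_filter, Fin.sum_univ_succ, Finset.univ_eq_empty, Finset.sum_empty,
    ite_toNat]
  rw [dec_symm (ρ 0) (ρ 1), dec_symm (ρ 0) (ρ 2), dec_symm (ρ 0) (ρ 3), dec_symm (ρ 0) (ρ 4),
    dec_symm (ρ 1) (ρ 2), dec_symm (ρ 1) (ρ 3), dec_symm (ρ 1) (ρ 4),
    dec_symm (ρ 2) (ρ 3), dec_symm (ρ 2) (ρ 4), dec_symm (ρ 3) (ρ 4)]
  simp only [Nat.add_zero, Nat.mul_one, Nat.sub_zero, ← Nat.add_assoc]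
  rfl

theorem VS_bits {d : ℕ} (ρ : Fin 5 → Fin d) : Nf d 5 ρ * VS ρ =
    term d (ρ 0).val (ρ 1).val (ρ 2).val (ρ 3).val (ρ 4).val := by
  unfold term
  simp only [beq_eq]
  unfold term'
  rw [Nf_bits]
  congr 1
  unfold VS wS
  have e10 : (ρ 1 = ρ 0) = (ρ 0 = ρ 1) := propext eq_comm
  have e20 : (ρ 2 = ρ 0) = (ρ 0 = ρ 2) := propext eq_comm
  have e30 : (ρ 3 = ρ 0) = (ρ 0 = ρ 3) := propext eq_comm
  have e40 : (ρ 4 = ρ 0) = (ρ 0 = ρ 4) := propext eq_comm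
  have e21 : (ρ 2 = ρ 1) = (ρ 1 = ρ 2) := propext eq_comm
  have e31 : (ρ 3 = ρ 1) = (ρ 1 = ρ 3) := propext eq_comm
  have e41 : (ρ 4 = ρ 1) = (ρ 1 = ρ 4) := propext eq_comm
  have e32 : (ρ 3 = ρ 2) = (ρ 2 = ρ 3) := propext eq_comm
  have e42 : (ρ 4 = ρ 2) = (ρ 2 = ρ 4) := propext eq_comm
  have e43 : (ρ 4 = ρ 3) = (ρ 3 = ρ 4) := propext eq_comm
  simp only [ws_bits, FFρ_bits, Fin.sum_univ_five, Finset.card_filter, ite_toNat, qb, e10, e20, e30,
    e40, e21, e31, e41, e32, e42, e43]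
  have c : ∀ (P : Prop) [Decidable P] (x y : ℕ), (if P then x else y) = bif decide P then x else y := by
    intro P _ x y
    by_cases h : P <;> simp [h]
  simp only [c]
  generalize decide (ρ 0 = ρ 1) = b01
  generalize decide (ρ 0 = ρ 2) = b02
  generalize decide (ρ 0 = ρ 3) = b03
  generalize decide (ρ 0 = ρ 4) = b04
  generalize decide (ρ 1 = ρ 2) = b12
  generalize decide (ρ 1 = ρ 3) = b13
  generalize decide (ρ 1 = ρ 4) = b14
  generalize decide (ρ 2 = ρ 3) = b23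
  generalize decide (ρ 2 = ρ 4) = b24
  generalize decide (ρ 3 = ρ 4) = b34
  simp

end Pool.Agent.Q216.Seb
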