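import Pool.Agent.Q216.Seb.Tour

set_option autoImplicit false

namespace Pool.Agent.Q216.Seb

open Finset

theorem avg_comm {A B : Type} [Fintype A] [Fintype B] (f : A → B → ℝ) :
    avg (fun a => avg (fun b => f a b)) = avg (fun b => avg (fun a => f a b)) := by
  unfold avg
  rw [← Finset.sum_div, ← Finset.sum_div, Finset.sum_comm, div_div, div_div, mul_comm]

/-- the special teams among the finalists, when the rows of the special teams are given by `ρ` and the mark
of the row of `4` points to `p` -/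
def FFρ {d : ℕ} (ρ : Fin 5 → Fin d) (p : Option (Fin 5)) : Fin 5 → Bool :=
  fun b => decide (champ5 (fun b' => decide (ρ b' = ρ b)) p b)

def aS (F : Fin 5 → Bool) : ℕ := if ∃ b, isCW5 F b ∧ 2 ≤ b.val then 1 else 0

def bS (F : Fin 5 → Bool) : ℕ := if ∃ b, isCW5 F b then 0 else #{b : Fin 5 | 2 ≤ b.val ∧ F b = true}

def wS {d : ℕ} (ρ : Fin 5 → Fin d) (p : Option (Fin 5)) : ℕ := aS (FFρ ρ p) * d + bS (FFρ ρ p)

def VS {d : ℕ} (ρ : Fin 5 → Fin d) : ℕ :=
  (∑ b : Fin 5, if ρ b = ρ 4 then wS ρ (some b) else 0) + (d - #{b : Fin 5 | ρ b = ρ 4}) * wS ρ none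

theorem cw5_unique : ∀ (F : Fin 5 → Bool) (b b' : Fin 5), isCW5 F b → isCW5 F b' → b = b' := by
  intro F b b' h h'
  by_contra hne
  have h1 := h.2 b' h'.1 (Ne.symm hne)
  have h2 := h'.2 b h.1 hne
  unfold T5 at h1 h2
  omega

section

variable {d n : ℕ} (σ : Leaf d 2 ≃ Fin n) (e5 : Fin 5 ↪ Fin n)

/-- the leaf at place `j` of row `i` -/
def lf (i j : Fin d) : Leaf d 2 := ((i, (j, ())) : Fin d × Fin d × Unit)

/-- the team at place `j` of row `i` -/
def tt (i j : Fin d) : Fin n := σ (lf i j)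

/-- the row of the special team `b` -/
def row (b : Fin 5) : Fin d := (show Fin d × Fin d × Unit from σ.symm (e5 b)).1

theorem ty_tt (he : ∀ b, (e5 b).val = b.val) (i j : Fin d) (b : Fin 5) :
    ty (tt σ i j) = some b ↔ σ.symm (e5 b) = lf i j := by
  rw [ty_some]
  constructor
  · intro h
    rw [Equiv.symm_apply_eq]
    apply Fin.ext
    rw [he]
    exact h.symm
  · intro h
    rw [Equiv.symm_apply_eq] at h
    unfold tt
    rw [← he, ← h]

theorem FF_row (he : ∀ b, (e5 b).val = b.val) (i : Fin d) :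
    FF (tt σ i) = fun b => decide (row σ e5 b = i) := by
  funext b
  rw [Bool.eq_iff_iff, FF_true, decide_eq_true_iff]
  constructor
  · rintro ⟨j, hj⟩
    rw [ty_tt σ e5 he] at hj
    unfold row
    rw [hj]
    rfl
  · intro h
    refine ⟨(show Fin d × Fin d × Unit from σ.symm (e5 b)).2.1, ?_⟩
    rw [ty_tt σ e5 he]
    unfold row at h
    exact Prod.ext h (Prod.ext rfl rfl)

theorem row_of_ty (he : ∀ b, (e5 b).val = b.val) {i j : Fin d} {b : Fin 5}
    (h : ty (tt σ i j) = some b) : row σ e5 b = i := by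
  rw [ty_tt σ e5 he] at h
  unfold row
  rw [h]
  rfl

/-- the finalist of row `i` when the marks of the rows are `j` -/
noncomputable def cc (j : Fin d → Fin d) (i : Fin d) : Fin n := champ (TB n) (tt σ i) (j i)

theorem ty_cc (he : ∀ b, (e5 b).val = b.val) (j : Fin d → Fin d) (i : Fin d) (b : Fin 5) :
    ty (cc σ j i) = some b ↔
      (row σ e5 b = i ∧ champ5 (fun b' => decide (row σ e5 b' = row σ e5 b))
        (ty (tt σ (row σ e5 4) (j (row σ e5 4)))) b) := by
  unfold cc
  rw [champ_ty, FF_row σ e5 he]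
  have key : row σ e5 b = i → (champ5 (fun b' => decide (row σ e5 b' = i)) (ty (tt σ i (j i))) b ↔
      champ5 (fun b' => decide (row σ e5 b' = row σ e5 b))
        (ty (tt σ (row σ e5 4) (j (row σ e5 4)))) b) := by
    intro h
    subst h
    by_cases h4 : row σ e5 4 = row σ e5 b
    · rw [h4]
    · exact champ5_indep _ (by simp [h4]) _ _ _
  constructor
  · intro h
    have hr : row σ e5 b = i := by
      rcases h with h | ⟨_, _, h⟩
      · simpa using h.1
      · exact row_of_ty σ e5 he h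
    exact ⟨hr, (key hr).1 h⟩
  · rintro ⟨hr, h⟩
    exact (key hr).2 h

theorem FF_final (he : ∀ b, (e5 b).val = b.val) (j : Fin d → Fin d) :
    FF (cc σ j) = FFρ (row σ e5) (ty (tt σ (row σ e5 4) (j (row σ e5 4)))) := by
  funext b
  rw [Bool.eq_iff_iff, FF_true]
  unfold FFρ
  rw [decide_eq_true_iff]
  constructor
  · rintro ⟨i, hi⟩
    exact ((ty_cc σ e5 he j i b).1 hi).2
  · intro h
    exact ⟨row σ e5 b, (ty_cc σ e5 he j _ b).2 ⟨rfl, h⟩⟩

open Classical in
/-- averaging over the mark of the root -/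
theorem root_avg (he : ∀ b, (e5 b).val = b.val) (hd : 0 < d) (j : Fin d → Fin d) :
    avg (fun k : Fin d => if (∃ b : Fin 5, 2 ≤ b.val ∧ ty (champ (TB n) (cc σ j) k) = some b)
      then (1 : ℝ) else 0) =
      (wS (row σ e5) (ty (tt σ (row σ e5 4) (j (row σ e5 4)))) : ℝ) / d := by
  set p := ty (tt σ (row σ e5 4) (j (row σ e5 4))) with hp
  have hF := FF_final σ e5 he j
  rw [← hp] at hF
  have hdR : (d : ℝ) ≠ 0 := by positivity
  have h1 : ∀ k : Fin d, (∃ b : Fin 5, 2 ≤ b.val ∧ ty (champ (TB n) (cc σ j) k) = some b) ↔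
      ∃ b : Fin 5, 2 ≤ b.val ∧ champ5 (FFρ (row σ e5) p) (ty (cc σ j k)) b := by
    intro k
    simp only [champ_ty, hF]
  simp only [h1]
  unfold avg wS
  rw [Fintype.card_fin]
  congr 1
  rw [Finset.sum_boole]
  norm_cast
  by_cases hcw : ∃ b, isCW5 (FFρ (row σ e5) p) b
  · obtain ⟨b₀, hb₀⟩ := hcw
    have h2 : ∀ k : Fin d, (∃ b : Fin 5, 2 ≤ b.val ∧ champ5 (FFρ (row σ e5) p) (ty (cc σ j k)) b) ↔
        2 ≤ b₀.val := by
      intro k
      constructor
      · rintro ⟨b, hb, h | ⟨h, _, _⟩⟩
        · rw [← cw5_unique _ _ _ h hb₀]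
          exact hb
        · exact absurd hb₀ (h b₀)
      · intro h
        exact ⟨b₀, h, Or.inl hb₀⟩
    simp only [h2]
    have h3 : bS (FFρ (row σ e5) p) = 0 := by
      unfold bS
      rw [if_pos ⟨b₀, hb₀⟩]
    rw [h3]
    by_cases h4 : 2 ≤ b₀.val
    · have h5 : aS (FFρ (row σ e5) p) = 1 := by
        unfold aS
        rw [if_pos ⟨b₀, hb₀, h4⟩]
      rw [h5]
      simp [h4]
    · have h5 : aS (FFρ (row σ e5) p) = 0 := by
        unfold aS
        rw [if_neg]
        rintro ⟨b, hb, hb2⟩
        rw [cw5_unique _ _ _ hb hb₀] at hb2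
        exact h4 hb2
      rw [h5]
      simp [h4]
  · have h3 : aS (FFρ (row σ e5) p) = 0 := by
      unfold aS
      rw [if_neg]
      rintro ⟨b, hb, _⟩
      exact hcw ⟨b, hb⟩
    have h4 : bS (FFρ (row σ e5) p) = #{b : Fin 5 | 2 ≤ b.val ∧ FFρ (row σ e5) p b = true} := by
      unfold bS
      rw [if_neg hcw]
    rw [h3, h4, Nat.zero_mul, Nat.zero_add]
    symm
    refine Finset.card_bij (fun b _ => row σ e5 b) ?_ ?_ ?_
    · intro b hb
      rw [Finset.mem_filter] at hb ⊢
      refine ⟨Finset.mem_univ _, b, hb.2.1, Or.inr ⟨fun b' hb' => hcw ⟨b', hb'⟩, ⟨b, hb.2.2⟩, ?_⟩⟩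
      have h5 := hb.2.2
      unfold FFρ at h5
      rw [decide_eq_true_iff] at h5
      exact (ty_cc σ e5 he j _ b).2 ⟨rfl, h5⟩
    · intro b hb b' hb' hbb
      rw [Finset.mem_filter] at hb hb'
      have h5 := hb.2.2
      have h5' := hb'.2.2
      unfold FFρ at h5 h5'
      rw [decide_eq_true_iff] at h5 h5'
      have h6 := (ty_cc σ e5 he j _ b).2 ⟨rfl, h5⟩
      have h6' := (ty_cc σ e5 he j _ b').2 ⟨rfl, h5'⟩
      rw [hbb, h6', Option.some_inj] at h6
      exact h6.symm
    · intro k hk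
      rw [Finset.mem_filter] at hk
      obtain ⟨_, b, hb, h | ⟨_, _, h⟩⟩ := hk
      · exact absurd ⟨b, h⟩ hcw
      · have h7 := (ty_cc σ e5 he j k b).1 h
        refine ⟨b, ?_, h7.1⟩
        rw [Finset.mem_filter]
        refine ⟨Finset.mem_univ _, hb, ?_⟩
        unfold FFρ
        rw [decide_eq_true_iff]
        exact h7.2

/-- averaging over the mark of the row of `4` -/
theorem row_avg (he : ∀ b, (e5 b).val = b.val) (hd : 0 < d) (i : Fin d) (g : Option (Fin 5) → ℕ) :
    avg (fun j : Fin d => (g (ty (tt σ i j)) : ℝ)) =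
      (((∑ b : Fin 5, if row σ e5 b = i then g (some b) else 0) +
        (d - #{b : Fin 5 | row σ e5 b = i}) * g none : ℕ) : ℝ) / d := by
  unfold avg
  rw [Fintype.card_fin]
  congr 1
  rw [← Nat.cast_sum]
  congr 1
  -- split according to the type
  have h1 : ∀ j : Fin d, g (ty (tt σ i j)) = ∑ o : Option (Fin 5), if ty (tt σ i j) = o then g o else 0 := by
    intro j
    rw [Finset.sum_ite_eq]
    simp
  rw [Finset.sum_congr rfl (fun j _ => h1 j), Finset.sum_comm, Fintype.sum_option]
  have h2 : ∀ b : Fin 5, (∑ j : Fin d, if ty (tt σ i j) = some b then g (some b) else 0) =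
      if row σ e5 b = i then g (some b) else 0 := by
    intro b
    split_ifs with h
    · rw [Finset.sum_eq_single (show Fin d × Fin d × Unit from σ.symm (e5 b)).2.1]
      · rw [if_pos]
        rw [ty_tt σ e5 he]
        unfold row at h
        exact Prod.ext h (Prod.ext rfl rfl)
      · intro j _ hj
        rw [if_neg]
        intro h'
        rw [ty_tt σ e5 he] at h'
        apply hj
        rw [h']
        rfl
      · intro h'
        exact absurd (Finset.mem_univ _) h'
    · apply Finset.sum_eq_zero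
      intro j _
      rw [if_neg]
      intro h'
      exact h (row_of_ty σ e5 he h')
  rw [Finset.sum_congr rfl (fun b _ => h2 b), add_comm]
  congr 1
  rw [← Finset.sum_filter, Finset.sum_const, smul_eq_mul]
  congr 1
  -- the number of weak teams of the row
  have h3 : #{j : Fin d | ty (tt σ i j) = none} + #{j : Fin d | ¬ ty (tt σ i j) = none} = d := by
    have := Finset.card_filter_add_card_filter_not (s := (Finset.univ : Finset (Fin d)))
      (fun j => ty (tt σ i j) = none)
    rw [this, Finset.card_univ, Fintype.card_fin]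
  have h4 : #{j : Fin d | ¬ ty (tt σ i j) = none} = #{b : Fin 5 | row σ e5 b = i} := by
    symm
    refine Finset.card_bij (fun b _ => (show Fin d × Fin d × Unit from σ.symm (e5 b)).2.1) ?_ ?_ ?_
    · intro b hb
      rw [Finset.mem_filter] at hb ⊢
      refine ⟨Finset.mem_univ _, ?_⟩
      have : ty (tt σ i (show Fin d × Fin d × Unit from σ.symm (e5 b)).2.1) = some b := by
        rw [ty_tt σ e5 he]
        have h := hb.2
        unfold row at h
        exact Prod.ext h (Prod.ext rfl rfl)
      rw [this]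
      exact Option.some_ne_none b
    · intro b hb b' hb' hbb
      rw [Finset.mem_filter] at hb hb'
      have h := hb.2
      have h' := hb'.2
      unfold row at h h'
      have h5 : σ.symm (e5 b) = σ.symm (e5 b') := Prod.ext (h.trans h'.symm) (Prod.ext hbb rfl)
      exact e5.injective (σ.symm.injective h5)
    · intro j hj
      rw [Finset.mem_filter] at hj
      obtain ⟨b, hb⟩ := Option.ne_none_iff_exists'.1 hj.2
      refine ⟨b, ?_, ?_⟩
      · rw [Finset.mem_filter]
        exact ⟨Finset.mem_univ _, row_of_ty σ e5 he hb⟩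
      · rw [ty_tt σ e5 he] at hb
        rw [hb]
        rfl
  omega

end

end Pool.Agent.Q216.Seb
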