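import Pool.Agent.Q216.Seb.Count

set_option autoImplicit false

namespace Pool.Agent.Q216.Seb

open Finset

/-- the tournament `T`: `0, 1` strong, `2, 3, 4` the coalition, the others weak -/
def TB (n : ℕ) (i j : Fin n) : Prop :=
  (i.val < j.val ∧ ¬ (i.val < 2 ∧ j.val = 4)) ∨ (i.val = 4 ∧ j.val < 2)

/-- the tournament `T'`: `4` beats everybody -/
def TB' (n : ℕ) (i j : Fin n) : Prop :=
  (i.val = 4 ∧ j.val ≠ 4) ∨ (i.val ≠ 4 ∧ j.val ≠ 4 ∧ i.val < j.val)

theorem TB_tour (n : ℕ) : IsTournament (TB n) := by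
  constructor
  · intro x; unfold TB; omega
  · intro x y h
    have : x.val ≠ y.val := fun h' => h (Fin.ext h')
    unfold TB
    omega

theorem TB'_tour (n : ℕ) : IsTournament (TB' n) := by
  constructor
  · intro x; unfold TB'; omega
  · intro x y h
    have : x.val ≠ y.val := fun h' => h (Fin.ext h')
    unfold TB'
    omega

/-- `T` on the five special teams -/
def T5 (b b' : Fin 5) : Prop := (b.val < b'.val ∧ ¬ (b.val < 2 ∧ b'.val = 4)) ∨ (b.val = 4 ∧ b'.val < 2)

instance (b b' : Fin 5) : Decidable (T5 b b') := by unfold T5; infer_instance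

/-- `b` is the Condorcet winner of the set `F` of special teams -/
def isCW5 (F : Fin 5 → Bool) (b : Fin 5) : Prop := F b = true ∧ ∀ b', F b' = true → b' ≠ b → T5 b b'

instance (F : Fin 5 → Bool) (b : Fin 5) : Decidable (isCW5 F b) := by unfold isCW5; infer_instance

/-- the special team that is a given team -/
def ty {n : ℕ} (t : Fin n) : Option (Fin 5) := if h : t.val < 5 then some ⟨t.val, h⟩ else none

theorem ty_some {n : ℕ} {t : Fin n} {b : Fin 5} : ty t = some b ↔ t.val = b.val := by
  unfold ty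
  split_ifs with h
  · rw [Option.some_inj]
    constructor
    · intro h'; rw [← h']
    · intro h'; exact Fin.ext h'
  · constructor
    · intro h'; cases h'
    · intro h'; have := b.isLt; omega

theorem ty_none {n : ℕ} {t : Fin n} : ty t = none ↔ 5 ≤ t.val := by
  unfold ty
  split_ifs with h
  · constructor
    · intro h'; cases h'
    · intro h'; omega
  · constructor
    · intro _; omega
    · intro _; rfl

/-- `champ5 F p = some b` -/
def champ5 (F : Fin 5 → Bool) (p : Option (Fin 5)) (b : Fin 5) : Prop :=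
  isCW5 F b ∨ ((∀ b', ¬ isCW5 F b') ∧ (∃ b', F b' = true) ∧ p = some b)

instance (F : Fin 5 → Bool) (p : Option (Fin 5)) (b : Fin 5) : Decidable (champ5 F p b) := by
  unfold champ5; infer_instance

open Classical in
/-- the set of the special teams among the `a i` -/
noncomputable def FF {n d : ℕ} (a : Fin d → Fin n) (b : Fin 5) : Bool := decide (∃ i, ty (a i) = some b)

theorem FF_true {n d : ℕ} {a : Fin d → Fin n} {b : Fin 5} :
    FF a b = true ↔ ∃ i, ty (a i) = some b := by
  unfold FF
  rw [decide_eq_true_iff]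

theorem isCW_iff {n d : ℕ} {a : Fin d → Fin n} {b : Fin 5} {t : Fin n} (ht : ty t = some b) :
    IsCW (TB n) (Set.range a) t ↔ isCW5 (FF a) b := by
  have htv := ty_some.1 ht
  constructor
  · rintro ⟨⟨i, hi⟩, h⟩
    refine ⟨FF_true.2 ⟨i, by rw [hi]; exact ht⟩, ?_⟩
    intro b' hb' hne
    obtain ⟨j, hj⟩ := FF_true.1 hb'
    have hjv := ty_some.1 hj
    have h1 := h (a j) ⟨j, rfl⟩ (by
      intro h2
      rw [h2] at hjv
      exact hne (Fin.ext (by omega)))
    unfold TB at h1
    unfold T5
    rw [htv, hjv] at h1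
    exact h1
  · rintro ⟨h1, h2⟩
    obtain ⟨i, hi⟩ := FF_true.1 h1
    have hiv := ty_some.1 hi
    refine ⟨⟨i, Fin.ext (by omega)⟩, ?_⟩
    rintro _ ⟨j, rfl⟩ hne
    have hne' : (a j).val ≠ b.val := fun h => hne (Fin.ext (by omega))
    by_cases hj : (a j).val < 5
    · have hj' : ty (a j) = some ⟨(a j).val, hj⟩ := ty_some.2 rfl
      have h3 := h2 ⟨(a j).val, hj⟩ (FF_true.2 ⟨j, hj'⟩) (by
        intro h
        exact hne' (by rw [← h]))
      unfold T5 at h3
      unfold TB
      rw [htv]
      exact h3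
    · unfold TB
      have := b.isLt
      left
      omega

theorem champ_ty {n d : ℕ} (a : Fin d → Fin n) (m : Fin d) (b : Fin 5) :
    ty (champ (TB n) a m) = some b ↔ champ5 (FF a) (ty (a m)) b := by
  constructor
  · intro h
    by_cases hex : ∃ x, IsCW (TB n) (Set.range a) x
    · obtain ⟨x, hx⟩ := hex
      rw [champ_cw (TB_tour n) hx] at h
      exact Or.inl ((isCW_iff h).1 hx)
    · have hno : ∀ x, ¬ IsCW (TB n) (Set.range a) x := fun x hx => hex ⟨x, hx⟩
      rw [champ_no hno] at h
      refine Or.inr ⟨?_, ⟨b, FF_true.2 ⟨m, h⟩⟩, h⟩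
      intro b' hb'
      obtain ⟨i, hi⟩ := FF_true.1 hb'.1
      exact hno (a i) ((isCW_iff hi).2 hb')
  · rintro (h | ⟨h1, ⟨b', hb'⟩, h3⟩)
    · obtain ⟨i, hi⟩ := FF_true.1 h.1
      rw [champ_cw (TB_tour n) ((isCW_iff hi).2 h)]
      exact hi
    · have hno : ∀ x, ¬ IsCW (TB n) (Set.range a) x := by
        intro x hx
        by_cases hx5 : x.val < 5
        · have hx' : ty x = some ⟨x.val, hx5⟩ := ty_some.2 rfl
          exact h1 _ ((isCW_iff hx').1 hx)
        · obtain ⟨j, hj⟩ := FF_true.1 hb'
          have hjv := ty_some.1 hj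
          have := b'.isLt
          have h4 := hx.2 (a j) ⟨j, rfl⟩ (by
            intro h5
            rw [← h5] at hx5
            omega)
          unfold TB at h4
          omega
      rw [champ_no hno]
      exact h3

theorem champ5_indep : ∀ (F : Fin 5 → Bool), F 4 = false → ∀ (p p' : Option (Fin 5)) (b : Fin 5),
    champ5 F p b ↔ champ5 F p' b := by decide +kernel

end Pool.Agent.Q216.Seb
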